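import Pool.Agent.Helper40.MR.Defs

/-!
# ST_DL: iterated differences of the logarithm
-/

open Finset MeasureTheory
open scoped BigOperators Nat

namespace Pool.Agent.Helper40.MR

/-- iterated differences of a function of a real variable -/
def dlR : List ℕ → (ℝ → ℝ) → ℝ → ℝ
  | [], F => F
  | h :: hs, F => fun x => dlR hs F (x + h) - dlR hs F x

theorem dl_cast (hs : List ℕ) (f : ℝ → ℝ) (n : ℕ) : dl hs (fun n : ℕ => f n) n = dlR hs f n := by
  induction hs generalizing n with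
  | nil => rfl
  | cons h hs ih =>
    simp only [dl, dlR]
    rw [ih, ih]
    push_cast
    rfl

theorem dl_deriv (hs : List ℕ) {f g : ℝ → ℝ} (hfg : ∀ x, 0 < x → HasDerivAt f (g x) x) {x : ℝ} (hx : 0 < x) :
    HasDerivAt (dlR hs f) (dlR hs g x) x := by
  induction hs generalizing x with
  | nil => exact hfg x hx
  | cons h hs ih =>
    simp only [dlR]
    have h1 : 0 < x + (h : ℝ) := by positivity
    have h2 := (ih h1).comp_add_const x (h : ℝ)
    exact h2.sub (ih hx)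

theorem dl_mvt (hs : List ℕ) (F : ℕ → ℝ → ℝ) (hF : ∀ i x, 0 < x → HasDerivAt (F i) (F (i + 1) x) x)
    (hpos : ∀ h ∈ hs, 1 ≤ h) {x : ℝ} (hx : 0 < x) :
    ∃ ξ : ℝ, x ≤ ξ ∧ ξ ≤ x + (hs.sum : ℝ) ∧ dlR hs (F 0) x = (hs.prod : ℝ) * F hs.length ξ := by
  induction hs generalizing x F with
  | nil => exact ⟨x, le_rfl, by simp, by simp [dlR]⟩
  | cons h hs ih =>
    have hh : (1 : ℝ) ≤ (h : ℝ) := by exact_mod_cast hpos h (by simp)
    have hlt : x < x + (h : ℝ) := by linarith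
    have hd : ∀ y ∈ Set.Icc x (x + (h : ℝ)), HasDerivAt (dlR hs (F 0)) (dlR hs (F 1) y) y :=
      fun y hy => dl_deriv hs (fun z hz => hF 0 z hz) (lt_of_lt_of_le hx hy.1)
    obtain ⟨c, hc, hc2⟩ := exists_hasDerivAt_eq_slope (dlR hs (F 0)) (fun y => dlR hs (F 1) y) hlt
      (fun y hy => (hd y hy).continuousAt.continuousWithinAt) (fun y hy => hd y (Set.Ioo_subset_Icc_self hy))
    have hc0 : 0 < c := lt_trans hx hc.1
    obtain ⟨ξ, h1, h2, h3⟩ := ih (fun i => F (i + 1)) (fun i y hy => hF (i + 1) y hy)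
      (fun k hk => hpos k (by simp [hk])) hc0
    refine ⟨ξ, by linarith [hc.1], ?_, ?_⟩
    · have := hc.2
      rw [List.sum_cons, Nat.cast_add]
      linarith
    · simp only [dlR, List.prod_cons, List.length_cons]
      have h0 : (h : ℝ) ≠ 0 := by linarith
      rw [h3, show x + (h : ℝ) - x = (h : ℝ) by ring, eq_div_iff h0] at hc2
      rw [← hc2]
      push_cast
      ring

/-- the derivatives of `log (x + β)` -/
noncomputable def dlF (β : ℝ) : ℕ → ℝ → ℝ
  | 0, x => Real.log (x + β)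
  | (i + 1), x => (-1) ^ i * (i ! : ℝ) * ((x + β) ^ (i + 1))⁻¹

theorem dlF_succ (β : ℝ) (i : ℕ) (x : ℝ) : dlF β (i + 1) x = (-1) ^ i * (i ! : ℝ) * ((x + β) ^ (i + 1))⁻¹ := rfl

theorem dl_F_deriv {β : ℝ} (hβ : 0 ≤ β) (i : ℕ) (x : ℝ) (hx : 0 < x) :
    HasDerivAt (dlF β i) (dlF β (i + 1) x) x := by
  have hpos : 0 < x + β := by linarith
  have h0 : HasDerivAt (fun x : ℝ => x + β) 1 x := (hasDerivAt_id' x).add_const β
  cases i with
  | zero =>
    have h1 := h0.log hpos.ne'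
    unfold dlF
    refine h1.congr_deriv ?_
    simp
  | succ i =>
    have h1 := ((h0.pow (i + 1)).inv (pow_ne_zero _ hpos.ne')).const_mul ((-1) ^ i * (i ! : ℝ))
    have e : dlF β (i + 1) = fun x => (-1) ^ i * (i ! : ℝ) * ((x + β) ^ (i + 1))⁻¹ := rfl
    rw [e, dlF_succ]
    refine h1.congr_deriv ?_
    rw [Nat.factorial_succ]
    push_cast
    simp only [Pi.pow_apply]
    field_simp
    ring

theorem st_DL : ST_DL := by
  intro k hs β n hlen hpos hβ0 hβ1 hn
  have hn' : (0 : ℝ) < n := by exact_mod_cast hn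
  have e1 : dl hs (fun n => Real.log (n + β)) n = dlR hs (dlF β 0) n := dl_cast hs (fun x => Real.log (x + β)) n
  obtain ⟨ξ, h1, h2, h3⟩ := dl_mvt hs (dlF β) (fun i x hx => dl_F_deriv hβ0 i x hx) hpos hn'
  have hprod : (0 : ℝ) ≤ (hs.prod : ℝ) := Nat.cast_nonneg _
  have hξ : 0 < ξ + β := by linarith
  have e2 : (-1) ^ k * dl hs (fun n => Real.log (n + β)) n = (k ! : ℝ) * (hs.prod : ℝ) / (ξ + β) ^ (k + 1) := by
    rw [e1, h3, hlen]
    unfold dlF
    have : ((-1 : ℝ) ^ k) * ((-1 : ℝ) ^ k) = 1 := by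
      rw [← mul_pow]
      norm_num
    rw [div_eq_mul_inv]
    calc (-1 : ℝ) ^ k * ((hs.prod : ℝ) * ((-1) ^ k * (k ! : ℝ) * ((ξ + β) ^ (k + 1))⁻¹))
        = ((-1 : ℝ) ^ k * (-1 : ℝ) ^ k) * ((k ! : ℝ) * (hs.prod : ℝ) * ((ξ + β) ^ (k + 1))⁻¹) := by ring
      _ = _ := by rw [this, one_mul]
  rw [e2]
  constructor
  · refine div_le_div_of_nonneg_left (by positivity) (by positivity) ?_
    exact pow_le_pow_left₀ hξ.le (by linarith) _
  · refine div_le_div_of_nonneg_left (by positivity) (by positivity) ?_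
    exact pow_le_pow_left₀ hn'.le (by linarith) _

end Pool.Agent.Helper40.MR
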