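import Pool.Agent.Helper45.MR.Planch

/-!
# ST_H4: the Plancherel step
-/

open Finset MeasureTheory
open scoped BigOperators Nat ContDiff FourierTransform ArithmeticFunction.vonMangoldt

namespace Pool.Agent.Helper40.MR

/-- sums of nonnegative coefficients -/
theorem h4_real_sum {b : ℕ → ℝ} {σ K : ℝ} (hσ : 0 < σ) (hb : ∀ n, 0 ≤ b n)
    (hs : LSeriesSummable (fun n => (b n : ℂ)) ((1 + σ : ℝ) : ℂ))
    (hK : ∀ v : ℝ, 0 ≤ v → ‖Sg (fun n => (b n : ℂ)) (Real.exp v)‖ ≤ K * Real.exp v) :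
    ∑' n, ‖LSeries.term (fun n => (b n : ℂ)) ((1 + σ : ℝ) : ℂ) n‖ ≤ (1 + σ) * (K / σ) := by
  have h1 : ∀ n, LSeries.term (fun n => (b n : ℂ)) ((1 + σ : ℝ) : ℂ) n =
      ((‖LSeries.term (fun n => (b n : ℂ)) ((1 + σ : ℝ) : ℂ) n‖ : ℝ) : ℂ) := by
    intro n
    rw [LSeries.norm_term_eq]
    by_cases hn0 : n = 0
    · simp [hn0]
    · have hn' : (0 : ℝ) ≤ n := Nat.cast_nonneg n
      rw [LSeries.term_of_ne_zero hn0, if_neg hn0, Complex.ofReal_re, Complex.norm_real,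
        Real.norm_of_nonneg (hb n), Complex.ofReal_div, Complex.ofReal_cpow hn', Complex.ofReal_natCast]
  have h2 : LSeries (fun n => (b n : ℂ)) ((1 + σ : ℝ) : ℂ) =
      ((∑' n, ‖LSeries.term (fun n => (b n : ℂ)) ((1 + σ : ℝ) : ℂ) n‖ : ℝ) : ℂ) := by
    unfold LSeries
    rw [Complex.ofReal_tsum]
    exact tsum_congr h1
  have hK' : ∀ v : ℝ, 0 ≤ v → ‖Sg (fun n => (b n : ℂ)) (Real.exp v)‖ ≤ K * Real.exp ((1 + σ - σ) * v) := by
    intro v hv
    have := hK v hv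
    rwa [show (1 + σ - σ) * v = v by ring]
  have h3 := h4_F_fourier hσ hs 0
  have h4 := (h4_F_int hσ hK').2
  have h5 : ‖𝓕 (h4F (fun n => (b n : ℂ)) σ) 0‖ ≤ K / σ := by
    rw [Real.fourier_real_eq_integral_exp_smul]
    refine le_trans (norm_integral_le_integral_norm _) (le_trans (le_of_eq ?_) h4)
    congr 1
    funext v
    rw [norm_smul, Complex.norm_exp]
    simp
  rw [h3, mul_zero, Complex.ofReal_zero, zero_mul, add_zero, h2, norm_div, Complex.norm_real,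
    Complex.norm_real, Real.norm_of_nonneg (tsum_nonneg fun n => norm_nonneg _),
    Real.norm_of_nonneg (by linarith : (0 : ℝ) ≤ 1 + σ), div_le_iff₀ (by linarith)] at h5
  linarith

/-- comparison of `L`-series -/
theorem h4_LS_le {a : ℕ → ℂ} {b : ℕ → ℝ} {σ : ℝ} (hab : ∀ n, ‖a n‖ ≤ b n)
    (hs : LSeriesSummable (fun n => (b n : ℂ)) ((1 + σ : ℝ) : ℂ)) {s : ℂ} (hre : s.re = 1 + σ) :
    LSeriesSummable a s ∧ ‖LSeries a s‖ ≤ ∑' n, ‖LSeries.term (fun n => (b n : ℂ)) ((1 + σ : ℝ) : ℂ) n‖ := by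
  have h1 : ∀ n, ‖LSeries.term a s n‖ ≤ ‖LSeries.term (fun n => (b n : ℂ)) ((1 + σ : ℝ) : ℂ) n‖ := by
    intro n
    rw [LSeries.norm_term_eq, LSeries.norm_term_eq, hre, Complex.ofReal_re]
    split_ifs
    · exact le_rfl
    · refine div_le_div_of_nonneg_right ?_ (by positivity)
      rw [Complex.norm_real]
      exact (hab n).trans (le_abs_self _)
  have h2 : Summable (fun n => ‖LSeries.term a s n‖) := Summable.of_nonneg_of_le (fun n => norm_nonneg _) h1 hs.norm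
  refine ⟨h2.of_norm, ?_⟩
  unfold LSeries
  exact (norm_tsum_le_tsum_norm h2).trans (h2.tsum_le_tsum h1 hs.norm)

theorem h4_sum_one (v : ℝ) : ‖Sg (fun _ => ((1 : ℝ) : ℂ)) (Real.exp v)‖ ≤ 1 * Real.exp v := by
  unfold Sg
  rw [one_mul]
  refine (norm_sum_le _ _).trans ?_
  simp only [Complex.ofReal_one, norm_one, sum_const, Nat.card_Icc, Nat.add_sub_cancel, nsmul_eq_mul, mul_one]
  exact Nat.floor_le (Real.exp_pos v).le

theorem h4_sum_vM {a : ℕ → ℂ} (ha : ∀ n, ‖a n‖ ≤ Λ n) (v : ℝ) :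
    ‖Sg a (Real.exp v)‖ ≤ (Real.log 4 + 4) * Real.exp v := by
  unfold Sg
  refine (norm_sum_le _ _).trans ((Finset.sum_le_sum fun n _ => ha n).trans ?_)
  have h := Chebyshev.psi_le_const_mul_self (Real.exp_pos v).le
  unfold Chebyshev.psi at h
  exact h

theorem h4_I1_eq (g : ℕ → ℂ) (σ : ℝ) : I1 g σ = ∫ v, ‖h4F (fun n => g n * (Real.log n : ℂ)) σ v‖ ^ 2 := by
  have hS : ∀ x, Sg (fun n => g n * (Real.log n : ℂ)) x = S1g g x := fun x => rfl
  have himg : Real.exp '' Set.Ioi 0 = Set.Ioi 1 := by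
    ext x
    simp only [Set.mem_image, Set.mem_Ioi]
    constructor
    · rintro ⟨y, hy, rfl⟩
      exact Real.one_lt_exp_iff.2 hy
    · intro hx
      exact ⟨Real.log x, Real.log_pos hx, Real.exp_log (by linarith)⟩
  unfold I1
  rw [← himg, integral_image_eq_integral_abs_deriv_smul measurableSet_Ioi
    (fun x _ => (Real.hasDerivAt_exp x).hasDerivWithinAt) Real.exp_injective.injOn]
  have h2 : ∫ v, ‖h4F (fun n => g n * (Real.log n : ℂ)) σ v‖ ^ 2 =
      ∫ v in Set.Ioi (0 : ℝ), ‖h4F (fun n => g n * (Real.log n : ℂ)) σ v‖ ^ 2 := by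
    rw [← integral_Ici_eq_integral_Ioi]
    refine (setIntegral_eq_integral_of_forall_compl_eq_zero fun v hv => ?_).symm
    rw [h4_F_zero _ _ (lt_of_not_ge hv), norm_zero]
    norm_num
  rw [h2]
  refine setIntegral_congr_fun measurableSet_Ioi fun v _ => ?_
  simp only [smul_eq_mul]
  rw [abs_of_pos (Real.exp_pos v)]
  unfold h4F
  rw [hS, norm_mul, Complex.norm_real, Real.norm_of_nonneg (Real.exp_pos _).le, mul_pow,
    ← Real.exp_mul, ← Real.exp_nat_mul]
  rw [mul_left_comm, ← Real.exp_add]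
  congr 2
  push_cast
  ring

theorem h4_log_conv {g : ℕ → ℂ} (hg : CM g) :
    ∀ n : ℕ, n ≠ 0 → g n * (Real.log n : ℂ) = LSeries.convolution (fun n => g n * (Λ n : ℂ)) g n := by
  intro n hn
  rw [LSeries.convolution_def]
  simp only
  have h1 : (Real.log n : ℂ) = ∑ p ∈ n.divisorsAntidiagonal, (Λ p.1 : ℂ) := by
    rw [← ArithmeticFunction.vonMangoldt_sum, Nat.sum_divisorsAntidiagonal (f := fun a _ => (Λ a : ℂ))]
    push_cast
    rfl
  rw [h1, Finset.mul_sum]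
  refine Finset.sum_congr rfl fun p hp => ?_
  have h2 := (Nat.mem_divisorsAntidiagonal.1 hp).1
  rw [← h2, hg.2.1]
  ring

theorem st_H4 : ST_H4 := by
  set K : ℝ := Real.log 4 + 4 with hK
  have hKpos : 0 < K := by
    have : 0 < Real.log 4 := Real.log_pos (by norm_num)
    positivity
  refine ⟨16 * K ^ 2 + K ^ 2, by positivity, ?_⟩
  intro g hg σ N B hσ hσ1 hN hB hGB
  have hN0 : 0 < N := by linarith
  -- summability and bounds
  have s1 : LSeriesSummable (fun _ => ((1 : ℝ) : ℂ)) ((1 + σ : ℝ) : ℂ) := by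
    refine LSeriesSummable_of_bounded_of_one_lt_re (m := 1) (fun n _ => by simp) ?_
    rw [Complex.ofReal_re]
    linarith
  have sL : LSeriesSummable (fun n => (Λ n : ℂ)) ((1 + σ : ℝ) : ℂ) :=
    ArithmeticFunction.LSeriesSummable_vonMangoldt (by rw [Complex.ofReal_re]; linarith)
  have bG : ∀ s : ℂ, s.re = 1 + σ → LSeriesSummable g s ∧ ‖LSeries g s‖ ≤ 2 / σ := by
    intro s hs
    obtain ⟨a1, a2⟩ := h4_LS_le (a := g) (b := fun _ => 1) hg.2.2 s1 hs
    refine ⟨a1, a2.trans ((h4_real_sum hσ (fun _ => zero_le_one) s1 fun v _ => h4_sum_one v).trans ?_)⟩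
    rw [mul_one_div]
    exact div_le_div_of_nonneg_right (by linarith) hσ.le
  have haL : ∀ n, ‖g n * (Λ n : ℂ)‖ ≤ Λ n := by
    intro n
    rw [norm_mul, Complex.norm_real, Real.norm_of_nonneg ArithmeticFunction.vonMangoldt_nonneg]
    exact mul_le_of_le_one_left ArithmeticFunction.vonMangoldt_nonneg (hg.2.2 n)
  have bP : ∀ s : ℂ, s.re = 1 + σ → LSeriesSummable (fun n => g n * (Λ n : ℂ)) s ∧
      ‖LSeries (fun n => g n * (Λ n : ℂ)) s‖ ≤ 2 * K / σ := by
    intro s hs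
    obtain ⟨a1, a2⟩ := h4_LS_le (b := fun n => Λ n) haL sL hs
    refine ⟨a1, a2.trans ((h4_real_sum hσ (fun _ => ArithmeticFunction.vonMangoldt_nonneg) sL
      fun v _ => h4_sum_vM (fun n => by
        rw [Complex.norm_real, Real.norm_of_nonneg ArithmeticFunction.vonMangoldt_nonneg]) v).trans ?_)⟩
    rw [← mul_div_assoc]
    refine div_le_div_of_nonneg_right ?_ hσ.le
    nlinarith
  -- the function with the logarithm
  have hlogS : ∀ v : ℝ, 0 ≤ v → ‖Sg (fun n => g n * (Real.log n : ℂ)) (Real.exp v)‖ ≤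
      (2 / σ) * Real.exp ((1 + σ - σ / 2) * v) := by
    intro v hv
    have h1 : ‖Sg (fun n => g n * (Real.log n : ℂ)) (Real.exp v)‖ ≤ Real.exp v * v := by
      unfold Sg
      refine (norm_sum_le _ _).trans ?_
      have h2 : ∀ n ∈ Icc 1 ⌊Real.exp v⌋₊, ‖g n * (Real.log n : ℂ)‖ ≤ v := by
        intro n hn
        obtain ⟨n1, n2⟩ := Finset.mem_Icc.1 hn
        have hn' : (1 : ℝ) ≤ n := by exact_mod_cast n1
        rw [Nat.le_floor_iff (Real.exp_pos v).le] at n2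
        rw [norm_mul, Complex.norm_real, Real.norm_of_nonneg (Real.log_nonneg hn')]
        have h3 : Real.log n ≤ v := (Real.log_le_iff_le_exp (by linarith)).2 n2
        calc ‖g n‖ * Real.log n ≤ 1 * Real.log n :=
              mul_le_mul_of_nonneg_right (hg.2.2 n) (Real.log_nonneg hn')
          _ ≤ v := by rwa [one_mul]
      refine (Finset.sum_le_card_nsmul _ _ _ h2).trans ?_
      rw [nsmul_eq_mul, Nat.card_Icc, Nat.add_sub_cancel]
      exact mul_le_mul_of_nonneg_right (Nat.floor_le (Real.exp_pos v).le) hv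
    refine h1.trans ?_
    have h4 : v ≤ (2 / σ) * Real.exp (σ / 2 * v) := by
      have h5 := Real.add_one_le_exp (σ / 2 * v)
      have h6 : v = (2 / σ) * (σ / 2 * v) := by field_simp
      calc v = (2 / σ) * (σ / 2 * v) := h6
        _ ≤ (2 / σ) * Real.exp (σ / 2 * v) := mul_le_mul_of_nonneg_left (by linarith) (by positivity)
    calc Real.exp v * v ≤ Real.exp v * ((2 / σ) * Real.exp (σ / 2 * v)) :=
          mul_le_mul_of_nonneg_left h4 (Real.exp_pos v).le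
      _ = (2 / σ) * Real.exp ((1 + σ - σ / 2) * v) := by
          rw [mul_left_comm, ← Real.exp_add]
          ring_nf
  have hconvS : ∀ s : ℂ, s.re = 1 + σ → LSeriesSummable (fun n => g n * (Real.log n : ℂ)) s ∧
      LSeries (fun n => g n * (Real.log n : ℂ)) s =
        LSeries (fun n => g n * (Λ n : ℂ)) s * LSeries g s := by
    intro s hs
    have c1 := (bP s hs).1.convolution (bG s hs).1
    have c2 := LSeries_convolution' (bP s hs).1 (bG s hs).1
    have c3 : LSeriesSummable (fun n => g n * (Real.log n : ℂ)) s :=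
      (LSeriesSummable_congr s fun {n} hn => h4_log_conv hg n hn).2 c1
    exact ⟨c3, by rw [← c2]; exact LSeries_congr (fun {n} hn => h4_log_conv hg n hn) s⟩
  obtain ⟨f1, -⟩ := h4_F_int (by positivity) hlogS
  obtain ⟨f2, -⟩ := h4_F_sq (by positivity) hlogS
  obtain ⟨p1, p2⟩ := h4_plancherel _ f1 f2
  have hKv : ∀ v : ℝ, 0 ≤ v → ‖Sg (fun n => g n * (Λ n : ℂ)) (Real.exp v)‖ ≤ K * Real.exp ((1 + σ - σ) * v) := by
    intro v _
    have := h4_sum_vM haL v
    rwa [show (1 + σ - σ) * v = v by ring]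
  obtain ⟨q1, -⟩ := h4_F_int hσ hKv
  obtain ⟨q2, q3⟩ := h4_F_sq hσ hKv
  obtain ⟨r1, r2⟩ := h4_plancherel _ q1 q2
  -- the tail integral
  set T : ℝ := N / (2 * Real.pi) with hT
  have hpi := Real.pi_pos
  have hTpos : 0 < T := by positivity
  set tl : ℝ → ℝ := fun ξ => (Set.Ioi T).indicator (fun ξ => (2 * Real.pi) ^ (-2 : ℝ) * ξ ^ (-2 : ℝ)) ξ with htl
  have hti : Integrable tl ∧ ∫ ξ, tl ξ = (2 * Real.pi) ^ (-2 : ℝ) * (T⁻¹) := by
    have i1 : IntegrableOn (fun ξ : ℝ => (2 * Real.pi) ^ (-2 : ℝ) * ξ ^ (-2 : ℝ)) (Set.Ioi T) :=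
      (integrableOn_Ioi_rpow_of_lt (by norm_num) hTpos).const_mul _
    refine ⟨by rwa [htl, integrable_indicator_iff measurableSet_Ioi], ?_⟩
    rw [htl, integral_indicator measurableSet_Ioi, integral_const_mul, integral_Ioi_rpow_of_lt (by norm_num) hTpos]
    congr 1
    norm_num
    rw [Real.rpow_neg_one]
  have htl_neg : Integrable (fun ξ => tl (-ξ)) ∧ ∫ ξ, tl (-ξ) = (2 * Real.pi) ^ (-2 : ℝ) * (T⁻¹) :=
    ⟨hti.1.comp_neg, by rw [integral_neg_eq_self, hti.2]⟩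
  have htl0 : ∀ ξ, 0 ≤ tl ξ := by
    intro ξ
    refine Set.indicator_apply_nonneg fun h => ?_
    have : 0 < ξ := lt_trans hTpos h
    positivity
  -- pointwise bound
  have hpt : ∀ ξ, ‖𝓕 (h4F (fun n => g n * (Real.log n : ℂ)) σ) ξ‖ ^ 2 ≤
      B ^ 2 * ‖𝓕 (h4F (fun n => g n * (Λ n : ℂ)) σ) ξ‖ ^ 2 +
      (16 * K ^ 2 / σ ^ 4) * (tl ξ + tl (-ξ)) := by
    intro ξ
    set s : ℂ := ((1 + σ : ℝ) : ℂ) + ((2 * Real.pi * ξ : ℝ) : ℂ) * Complex.I with hs
    have hre : s.re = 1 + σ := by simp [hs]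
    have him : s.im = 2 * Real.pi * ξ := by simp [hs]
    rw [h4_F_fourier hσ (hconvS _ (Complex.ofReal_re _)).1 ξ, h4_F_fourier hσ (bP _ (Complex.ofReal_re _)).1 ξ,
      ← hs, (hconvS s hre).2]
    have e1 : ‖LSeries (fun n => g n * (Λ n : ℂ)) s * LSeries g s / s‖ ^ 2 =
        ‖LSeries g s‖ ^ 2 * ‖LSeries (fun n => g n * (Λ n : ℂ)) s / s‖ ^ 2 := by
      rw [norm_div, norm_div, norm_mul]
      ring
    rw [e1]
    by_cases hy : |2 * Real.pi * ξ| ≤ N
    · have h1 : ‖LSeries g s‖ ≤ B := by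
        have := hGB (2 * Real.pi * ξ) hy
        unfold Gv at this
        exact this
      have h2 : ‖LSeries g s‖ ^ 2 ≤ B ^ 2 := by gcongr
      have h3 := mul_le_mul_of_nonneg_right h2 (sq_nonneg ‖LSeries (fun n => g n * (Λ n : ℂ)) s / s‖)
      have h4 : 0 ≤ (16 * K ^ 2 / σ ^ 4) * (tl ξ + tl (-ξ)) := by
        have := htl0 ξ
        have := htl0 (-ξ)
        positivity
      linarith
    · rw [not_le] at hy
      have h1 := (bG s hre).2
      have h2 := (bP s hre).2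
      have hs1 : |2 * Real.pi * ξ| ≤ ‖s‖ := by
        rw [← him]
        exact Complex.abs_im_le_norm s
      have hpos : 0 < |2 * Real.pi * ξ| := lt_trans hN0 hy
      have h3 : ‖LSeries g s‖ ^ 2 * ‖LSeries (fun n => g n * (Λ n : ℂ)) s / s‖ ^ 2 ≤
          (2 / σ) ^ 2 * ((2 * K / σ) / |2 * Real.pi * ξ|) ^ 2 := by
        rw [norm_div]
        gcongr
      have h4 : (2 / σ) ^ 2 * ((2 * K / σ) / |2 * Real.pi * ξ|) ^ 2 =
          (16 * K ^ 2 / σ ^ 4) * (|2 * Real.pi * ξ| ^ 2)⁻¹ := by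
        field_simp
        norm_num
      have h5 : (|2 * Real.pi * ξ| ^ 2)⁻¹ ≤ tl ξ + tl (-ξ) := by
        have hcase : ∀ η : ℝ, |η| = |ξ| → 0 ≤ η → (|2 * Real.pi * ξ| ^ 2)⁻¹ = tl η := by
          intro η h1 h2
          have h6 : |2 * Real.pi * ξ| = 2 * Real.pi * η := by
            rw [abs_mul, abs_of_pos (by positivity : 0 < 2 * Real.pi), ← h1, abs_of_nonneg h2]
          have h7 : η ∈ Set.Ioi T := by
            rw [h6] at hy
            rw [Set.mem_Ioi, hT, div_lt_iff₀ (by positivity)]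
            linarith
          have hη : 0 < η := lt_trans hTpos h7
          simp only [htl]
          rw [Set.indicator_of_mem h7, h6, ← Real.mul_rpow (by positivity) hη.le, Real.rpow_neg (by positivity)]
          norm_num
        rcases le_total 0 ξ with h0 | h0
        · rw [hcase ξ rfl h0]
          linarith [htl0 (-ξ)]
        · rw [hcase (-ξ) (abs_neg ξ) (by linarith)]
          linarith [htl0 ξ]
      have h6 : 0 ≤ B ^ 2 * ‖LSeries (fun n => g n * (Λ n : ℂ)) s / s‖ ^ 2 := by positivity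
      have h7 : (16 * K ^ 2 / σ ^ 4) * (|2 * Real.pi * ξ| ^ 2)⁻¹ ≤ (16 * K ^ 2 / σ ^ 4) * (tl ξ + tl (-ξ)) :=
        mul_le_mul_of_nonneg_left h5 (by positivity)
      linarith
  rw [h4_I1_eq, ← p2]
  have hR1 : Integrable (fun ξ => (16 * K ^ 2 / σ ^ 4) * (tl ξ + tl (-ξ))) :=
    (hti.1.add htl_neg.1).const_mul _
  have hR : Integrable (fun ξ => B ^ 2 * ‖𝓕 (h4F (fun n => g n * (Λ n : ℂ)) σ) ξ‖ ^ 2 +
      (16 * K ^ 2 / σ ^ 4) * (tl ξ + tl (-ξ))) :=
    (r1.const_mul _).add hR1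
  refine (integral_mono p1 hR hpt).trans ?_
  rw [integral_add (r1.const_mul _) hR1, integral_const_mul, integral_const_mul,
    integral_add hti.1 htl_neg.1, hti.2, htl_neg.2, r2]
  have e1 : (2 * Real.pi) ^ (-2 : ℝ) * T⁻¹ ≤ 1 / (2 * N) := by
    rw [Real.rpow_neg (by positivity), hT]
    have h3 : (3 : ℝ) < Real.pi := Real.pi_gt_three
    have : ((2 * Real.pi) ^ (2 : ℝ))⁻¹ * (N / (2 * Real.pi))⁻¹ = 1 / ((2 * Real.pi) * N) := by
      rw [Real.rpow_two]
      field_simp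
    rw [this]
    refine one_div_le_one_div_of_le (by positivity) ?_
    nlinarith
  have e2 : B ^ 2 * ∫ x, ‖h4F (fun n => g n * (Λ n : ℂ)) σ x‖ ^ 2 ≤ B ^ 2 * (K ^ 2 / (2 * σ)) :=
    mul_le_mul_of_nonneg_left q3 (by positivity)
  have e3 : (16 * K ^ 2 / σ ^ 4) * ((2 * Real.pi) ^ (-2 : ℝ) * T⁻¹ + (2 * Real.pi) ^ (-2 : ℝ) * T⁻¹) ≤
      (16 * K ^ 2 / σ ^ 4) * (1 / N) := by
    refine mul_le_mul_of_nonneg_left ?_ (by positivity)
    have : 1 / (2 * N) + 1 / (2 * N) = 1 / N := by field_simp; norm_num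
    linarith
  have e4 : B ^ 2 * (K ^ 2 / (2 * σ)) ≤ K ^ 2 * (B ^ 2 / σ) := by
    have : B ^ 2 * (K ^ 2 / (2 * σ)) = K ^ 2 * (B ^ 2 / σ) / 2 := by field_simp
    rw [this]
    have : 0 ≤ K ^ 2 * (B ^ 2 / σ) := by positivity
    linarith
  have e5 : (16 * K ^ 2 / σ ^ 4) * (1 / N) = 16 * K ^ 2 * (1 / (σ ^ 4 * N)) := by field_simp
  have e6 : 0 ≤ 16 * K ^ 2 * (B ^ 2 / σ) := by positivity
  have e7 : 0 ≤ K ^ 2 * (1 / (σ ^ 4 * N)) := by positivity
  nlinarith

end Pool.Agent.Helper40.MR
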