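import Pool.Agent.Helper40.MR.Defs

/-!
# Plancherel for `L¹ ∩ L²` functions on `ℝ`, Fourier transform of a summatory function
-/

open Finset MeasureTheory
open scoped BigOperators Nat ContDiff FourierTransform

namespace Pool.Agent.Helper40.MR

theorem h4_fourier_ae_eq (f : ℝ → ℂ) (hf : Integrable f) (hf2 : MemLp f 2) :
    ((𝓕 (hf2.toLp f) : Lp ℂ 2 (volume : Measure ℝ)) : ℝ → ℂ) =ᵐ[volume] 𝓕 f := by
  apply ae_eq_of_integral_contDiff_smul_eq
  · exact (Lp.memLp _).locallyIntegrable (by norm_num)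
  · apply Continuous.locallyIntegrable
    exact VectorFourier.fourierIntegral_continuous Real.continuous_fourierChar
      (innerSL ℝ).continuous₂ hf
  · intro g hg hgc
    have hg₁ : HasCompactSupport (Complex.ofRealCLM ∘ g) := hgc.comp_left rfl
    have hg₂ : ContDiff ℝ ∞ (Complex.ofRealCLM ∘ g) := by fun_prop
    let G : SchwartzMap ℝ ℂ := hg₁.toSchwartzMap hg₂
    have hG : ∀ x, G x = (g x : ℂ) := fun x => rfl
    have h1 : ∫ x, g x • ((𝓕 (hf2.toLp f) : Lp ℂ 2 (volume : Measure ℝ)) : ℝ → ℂ) x =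
        (Lp.toTemperedDistribution (𝓕 (hf2.toLp f) : Lp ℂ 2 (volume : Measure ℝ))) G := by
      rw [Lp.toTemperedDistribution_apply]
      rfl
    rw [h1, ← Lp.fourier_toTemperedDistribution_eq, TemperedDistribution.fourier_apply,
      Lp.toTemperedDistribution_apply]
    have h2 : ∫ x, (𝓕 G) x • ((hf2.toLp f : Lp ℂ 2 (volume : Measure ℝ)) : ℝ → ℂ) x =
        ∫ x, (𝓕 G) x • f x := by
      apply integral_congr_ae
      filter_upwards [hf2.coeFn_toLp] with x hx
      rw [hx]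
    rw [h2]
    have h3 := VectorFourier.integral_fourierIntegral_smul_eq_flip (μ := (volume : Measure ℝ))
      (ν := (volume : Measure ℝ))
      (L := innerₗ ℝ) (f := (G : ℝ → ℂ)) (g := f) Real.continuous_fourierChar
      continuous_inner G.integrable hf
    rw [flip_innerₗ] at h3
    exact h3

/-- Plancherel's theorem for the Fourier integral of a function in `L¹ ∩ L²` -/
theorem h4_plancherel (f : ℝ → ℂ) (hf : Integrable f) (hf2 : MemLp f 2) :
    Integrable (fun ξ => ‖𝓕 f ξ‖ ^ 2) ∧ ∫ ξ, ‖𝓕 f ξ‖ ^ 2 = ∫ x, ‖f x‖ ^ 2 := by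
  have hae := h4_fourier_ae_eq f hf hf2
  have hm : MemLp (𝓕 f) 2 (volume : Measure ℝ) := (Lp.memLp _).ae_eq hae
  have h1 : eLpNorm (𝓕 f) 2 volume = eLpNorm f 2 volume := by
    rw [← eLpNorm_congr_ae hae]
    have h1 := Lp.norm_fourier_eq (hf2.toLp f)
    rw [Lp.norm_def, Lp.norm_def, ENNReal.toReal_eq_toReal_iff' (Lp.eLpNorm_ne_top _)
      (Lp.eLpNorm_ne_top _)] at h1
    rw [h1]
    exact eLpNorm_congr_ae hf2.coeFn_toLp
  refine ⟨(memLp_two_iff_integrable_sq_norm hm.1).1 hm, ?_⟩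
  have e1 := hm.eLpNorm_eq_integral_rpow_norm (by norm_num) (by norm_num)
  have e2 := hf2.eLpNorm_eq_integral_rpow_norm (by norm_num) (by norm_num)
  rw [h1, e2] at e1
  have n1 : 0 ≤ ∫ x, ‖f x‖ ^ 2 := integral_nonneg fun x => by positivity
  have n2 : 0 ≤ ∫ x, ‖𝓕 f x‖ ^ 2 := integral_nonneg fun x => by positivity
  simp only [ENNReal.toReal_ofNat, Real.rpow_two] at e1
  rw [ENNReal.ofReal_eq_ofReal_iff (by positivity) (by positivity)] at e1
  exact ((Real.rpow_left_inj n1 n2 (by norm_num)).1 e1).symm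

/-! ### the function `v ↦ (∑_{n ≤ e^v} a n) e^{-(1+σ)v}` -/

/-- `v ↦ (∑_{n ≤ e^v} a n) e^{-(1+σ)v}` -/
noncomputable def h4F (a : ℕ → ℂ) (σ v : ℝ) : ℂ := Sg a (Real.exp v) * (Real.exp (-((1 + σ) * v)) : ℂ)

theorem h4_Sg_meas (a : ℕ → ℂ) : Measurable (Sg a) := by
  have h1 : Measurable (fun n : ℕ => ∑ k ∈ Icc 1 n, a k) := measurable_from_nat
  exact h1.comp Nat.measurable_floor

theorem h4_F_meas (a : ℕ → ℂ) (σ : ℝ) : Measurable (h4F a σ) := by
  unfold h4F
  exact ((h4_Sg_meas a).comp Real.measurable_exp).mul (by fun_prop)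

theorem h4_Sg_zero (a : ℕ → ℂ) {x : ℝ} (hx : x < 1) : Sg a x = 0 := by
  unfold Sg
  rw [Nat.floor_eq_zero.2 hx]
  simp

theorem h4_F_zero (a : ℕ → ℂ) (σ : ℝ) {v : ℝ} (hv : v < 0) : h4F a σ v = 0 := by
  unfold h4F
  rw [h4_Sg_zero a (Real.exp_lt_one_iff.2 hv), zero_mul]

theorem h4_F_le {a : ℕ → ℂ} {σ K τ : ℝ} (ha : ∀ v : ℝ, 0 ≤ v → ‖Sg a (Real.exp v)‖ ≤ K * Real.exp ((1 + σ - τ) * v))
    (v : ℝ) : ‖h4F a σ v‖ ≤ (Set.Ici (0 : ℝ)).indicator (fun v => K * Real.exp (-(τ * v))) v := by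
  by_cases hv : 0 ≤ v
  · rw [Set.indicator_of_mem (show v ∈ Set.Ici (0 : ℝ) from hv)]
    unfold h4F
    rw [norm_mul, Complex.norm_real, Real.norm_of_nonneg (Real.exp_pos _).le]
    calc ‖Sg a (Real.exp v)‖ * Real.exp (-((1 + σ) * v))
        ≤ (K * Real.exp ((1 + σ - τ) * v)) * Real.exp (-((1 + σ) * v)) :=
          mul_le_mul_of_nonneg_right (ha v hv) (Real.exp_pos _).le
      _ = K * Real.exp (-(τ * v)) := by
          rw [mul_assoc, ← Real.exp_add]
          ring_nf
  · rw [h4_F_zero a σ (lt_of_not_ge hv), norm_zero]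
    exact Set.indicator_apply_nonneg fun h => absurd h hv

theorem h4_ind_int {K τ : ℝ} (hτ : 0 < τ) :
    Integrable ((Set.Ici (0 : ℝ)).indicator (fun v => K * Real.exp (-(τ * v)))) ∧
    ∫ v, (Set.Ici (0 : ℝ)).indicator (fun v => K * Real.exp (-(τ * v))) v = K / τ := by
  have h1 : IntegrableOn (fun v => K * Real.exp (-(τ * v))) (Set.Ici (0 : ℝ)) := by
    rw [integrableOn_Ici_iff_integrableOn_Ioi]
    refine Integrable.const_mul ?_ K
    have := integrableOn_exp_mul_Ioi (a := -τ) (by linarith) 0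
    refine this.congr_fun (fun v _ => by ring_nf) measurableSet_Ioi
  constructor
  · rwa [integrable_indicator_iff measurableSet_Ici]
  · rw [integral_indicator measurableSet_Ici, integral_Ici_eq_integral_Ioi, integral_const_mul]
    have := integral_exp_mul_Ioi (a := -τ) (by linarith) 0
    have e : ∫ x in Set.Ioi (0 : ℝ), Real.exp (-(τ * x)) = ∫ x in Set.Ioi (0 : ℝ), Real.exp (-τ * x) := by
      congr 1
      funext x
      ring_nf
    rw [e, this]
    simp only [mul_zero, Real.exp_zero, neg_div_neg_eq]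
    ring

theorem h4_F_int {a : ℕ → ℂ} {σ K τ : ℝ} (hτ : 0 < τ)
    (ha : ∀ v : ℝ, 0 ≤ v → ‖Sg a (Real.exp v)‖ ≤ K * Real.exp ((1 + σ - τ) * v)) :
    Integrable (h4F a σ) ∧ (∫ v, ‖h4F a σ v‖) ≤ K / τ := by
  have h1 : Integrable (h4F a σ) := (h4_ind_int (K := K) hτ).1.mono' (h4_F_meas a σ).aestronglyMeasurable
    (Filter.Eventually.of_forall fun v => h4_F_le ha v)
  refine ⟨h1, ?_⟩
  rw [← (h4_ind_int (K := K) hτ).2]
  exact integral_mono h1.norm (h4_ind_int (K := K) hτ).1 fun v => h4_F_le ha v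

theorem h4_F_sq {a : ℕ → ℂ} {σ K τ : ℝ} (hτ : 0 < τ)
    (ha : ∀ v : ℝ, 0 ≤ v → ‖Sg a (Real.exp v)‖ ≤ K * Real.exp ((1 + σ - τ) * v)) :
    MemLp (h4F a σ) 2 ∧ (∫ v, ‖h4F a σ v‖ ^ 2) ≤ K ^ 2 / (2 * τ) := by
  have h2 : ∀ v, ‖h4F a σ v‖ ^ 2 ≤ (Set.Ici (0 : ℝ)).indicator (fun v => K ^ 2 * Real.exp (-((2 * τ) * v))) v := by
    intro v
    have h := h4_F_le ha v
    by_cases hv : v ∈ Set.Ici (0 : ℝ)
    · rw [Set.indicator_of_mem hv] at h ⊢
      calc ‖h4F a σ v‖ ^ 2 ≤ (K * Real.exp (-(τ * v))) ^ 2 := by gcongr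
        _ = K ^ 2 * Real.exp (-((2 * τ) * v)) := by
            rw [mul_pow, ← Real.exp_nat_mul]
            ring_nf
    · rw [Set.indicator_of_notMem hv] at h ⊢
      have : ‖h4F a σ v‖ = 0 := le_antisymm h (norm_nonneg _)
      rw [this]
      norm_num
  have h3 : Integrable (fun v => ‖h4F a σ v‖ ^ 2) := (h4_ind_int (K := K ^ 2) (τ := 2 * τ) (by linarith)).1.mono'
    ((h4_F_meas a σ).norm.pow_const 2).aestronglyMeasurable
    (Filter.Eventually.of_forall fun v => by
      rw [Real.norm_of_nonneg (by positivity)]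
      exact h2 v)
  refine ⟨(memLp_two_iff_integrable_sq_norm (h4_F_meas a σ).aestronglyMeasurable).2 h3, ?_⟩
  rw [← (h4_ind_int (K := K ^ 2) (τ := 2 * τ) (by linarith)).2]
  exact integral_mono h3 (h4_ind_int (K := K ^ 2) (τ := 2 * τ) (by linarith)).1 h2

/-- Fourier transform of `h4F` -/
theorem h4_F_fourier {a : ℕ → ℂ} {σ : ℝ} (hσ : 0 < σ) (hs : LSeriesSummable a ((1 + σ : ℝ) : ℂ)) (ξ : ℝ) :
    𝓕 (h4F a σ) ξ = LSeries a (((1 + σ : ℝ) : ℂ) + ((2 * Real.pi * ξ : ℝ) : ℂ) * Complex.I) /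
      (((1 + σ : ℝ) : ℂ) + ((2 * Real.pi * ξ : ℝ) : ℂ) * Complex.I) := by
  set s : ℂ := ((1 + σ : ℝ) : ℂ) + ((2 * Real.pi * ξ : ℝ) : ℂ) * Complex.I with hsdef
  have hre : s.re = 1 + σ := by
    simp [hsdef]
  have hs0 : s ≠ 0 := by
    intro h
    rw [h, Complex.zero_re] at hre
    linarith
  rw [Real.fourier_real_eq_integral_exp_smul]
  -- the terms
  set G : ℕ → ℝ → ℂ := fun n => if n = 0 then 0 else
    (Set.Ici (Real.log n)).indicator (fun v => a n * Complex.exp (-s * v)) with hG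
  have hpt : ∀ v : ℝ, ∑' n, G n v = Complex.exp (((-2 * Real.pi * v * ξ : ℝ) : ℂ) * Complex.I) • h4F a σ v := by
    intro v
    have hiff : ∀ n : ℕ, n ≠ 0 → (n ∈ Icc 1 ⌊Real.exp v⌋₊ ↔ v ∈ Set.Ici (Real.log n)) := by
      intro n hn
      have hn' : (0 : ℝ) < n := by exact_mod_cast Nat.pos_of_ne_zero hn
      rw [Finset.mem_Icc, Nat.le_floor_iff (Real.exp_pos v).le, Set.mem_Ici, Real.log_le_iff_le_exp hn']
      exact ⟨fun h => h.2, fun h => ⟨Nat.one_le_iff_ne_zero.2 hn, h⟩⟩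
    rw [tsum_eq_sum (s := Icc 1 ⌊Real.exp v⌋₊)]
    · unfold h4F Sg
      rw [Finset.sum_mul, Finset.smul_sum]
      refine Finset.sum_congr rfl fun n hn => ?_
      have hn0 : n ≠ 0 := by
        have := (Finset.mem_Icc.1 hn).1
        omega
      simp only [hG, if_neg hn0]
      rw [Set.indicator_of_mem ((hiff n hn0).1 hn), smul_eq_mul, Complex.ofReal_exp, mul_left_comm, ← Complex.exp_add]
      congr 2
      rw [hsdef]
      push_cast
      ring
    · intro n hn
      by_cases hn0 : n = 0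
      · simp [hG, hn0]
      · simp only [hG, if_neg hn0]
        rw [Set.indicator_of_notMem]
        exact fun h => hn ((hiff n hn0).2 h)
  have hexp : ∀ c : ℝ, IntegrableOn (fun v : ℝ => Complex.exp (-s * v)) (Set.Ici c) := by
    intro c
    rw [integrableOn_Ici_iff_integrableOn_Ioi]
    exact integrableOn_exp_mul_complex_Ioi (a := -s) (by rw [Complex.neg_re, hre]; linarith) c
  have hint : ∀ n, Integrable (G n) := by
    intro n
    by_cases hn0 : n = 0
    · simp only [hG, if_pos hn0]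
      exact integrable_zero _ _ _
    · simp only [hG, if_neg hn0]
      rw [integrable_indicator_iff measurableSet_Ici]
      exact (hexp _).const_mul _
  have hval : ∀ n, ∫ v, G n v = LSeries.term a s n / s := by
    intro n
    by_cases hn0 : n = 0
    · simp [hG, hn0]
    · have hn' : (n : ℂ) ≠ 0 := by exact_mod_cast hn0
      simp only [hG, if_neg hn0]
      rw [integral_indicator measurableSet_Ici, integral_Ici_eq_integral_Ioi, integral_const_mul,
        integral_exp_mul_complex_Ioi (a := -s) (by rw [Complex.neg_re, hre]; linarith),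
        LSeries.term_of_ne_zero hn0, Complex.cpow_def_of_ne_zero hn', ← Complex.natCast_log,
        neg_div_neg_eq]
      have e1 : Complex.exp (-s * (Real.log n : ℂ)) = (Complex.exp ((Real.log n : ℂ) * s))⁻¹ := by
        rw [← Complex.exp_neg]
        congr 1
        ring
      rw [e1]
      field_simp
  have hnorm : ∀ n, ∫ v, ‖G n v‖ = ‖LSeries.term a ((1 + σ : ℝ) : ℂ) n‖ / (1 + σ) := by
    intro n
    by_cases hn0 : n = 0
    · simp [hG, hn0]
    · have hn' : (0 : ℝ) < n := by exact_mod_cast Nat.pos_of_ne_zero hn0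
      simp only [hG, if_neg hn0]
      have e0 : (fun v : ℝ => ‖(Set.Ici (Real.log n)).indicator (fun v : ℝ => a n * Complex.exp (-s * v)) v‖) =
          (Set.Ici (Real.log n)).indicator (fun v : ℝ => ‖a n‖ * Real.exp (-(1 + σ) * v)) := by
        funext v
        rw [norm_indicator_eq_indicator_norm]
        by_cases hv : v ∈ Set.Ici (Real.log n)
        · rw [Set.indicator_of_mem hv, Set.indicator_of_mem hv, norm_mul, Complex.norm_exp]
          congr 2
          simp [hre]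
          ring
        · rw [Set.indicator_of_notMem hv, Set.indicator_of_notMem hv]
      rw [e0, integral_indicator measurableSet_Ici, integral_Ici_eq_integral_Ioi, integral_const_mul,
        integral_exp_mul_Ioi (a := -(1 + σ)) (by linarith), LSeries.norm_term_eq, if_neg hn0,
        Complex.ofReal_re, Real.rpow_def_of_pos hn', neg_div_neg_eq]
      have e1 : Real.exp (-(1 + σ) * Real.log n) = (Real.exp (Real.log n * (1 + σ)))⁻¹ := by
        rw [← Real.exp_neg]
        congr 1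
        ring
      rw [e1]
      have : (1 + σ) ≠ 0 := by linarith
      field_simp
  have hsum := hasSum_integral_of_summable_integral_norm hint (by
    simp only [hnorm]
    exact (hs.norm).div_const _)
  simp only [hval, hpt] at hsum
  rw [← hsum.tsum_eq, tsum_div_const]
  rfl

end Pool.Agent.Helper40.MR
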